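import Pool.Agent.H951Z.Alster

set_option autoImplicit false

namespace Pool.Agent.Results.MP_b47357_gt.NotWeaklyAlster

open Pool.Agent.H951Z.Alster

/-- There is a Tychonoff space that is productively weakly Lindelof (with respect to the weakly
Lindelof spaces of an arbitrary universe) and is not weakly Alster. -/
theorem result.{u} : ∃ (X : Type) (_ : TopologicalSpace X), T35Space X ∧
    ProductivelyWeaklyLindelof.{u} X ∧ ¬ WeaklyAlster X :=
  Pool.Agent.H951Z.Alster.main

end Pool.Agent.Results.MP_b47357_gt.NotWeaklyAlster
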